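import Pool.Graph.R_pool_sql_team_seeded_620a6dc7.Helper416_Stair.Final

/-!
# The local structure of ellipsoid embedding functions (MP_f690a7_gt, Q1)

Near every point that is not an irrational accumulation point the embedding function of a convex
toric domain is, on each side, affine or equal to the volume curve.  The ellipsoid embedding function
is given by ECH capacities, see `Pool.Agent.Helper416_Stair.Model`.
-/

set_option autoImplicit false

noncomputable section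

open scoped BigOperators Pointwise
open Set

namespace Pool.Agent.Results.MP_f690a7_gt.LocalStructure

open Pool.Agent.Helper416_Stair

/-- the volume `2 area Ω` of `X_Ω` -/
def Vol (Ω : Set (ℝ × ℝ)) : ℝ := 2 * (MeasureTheory.volume Ω).toReal

/-- the ellipsoid embedding function of `X_Ω` -/
def cOmega (Ω : Set (ℝ × ℝ)) (a : ℝ) : ℝ := cfun (echCap Ω) a

/-- `z` is a root of `z ^ 2 - z (Per ^ 2 / Vol - 2) + 1 = 0` -/
def IsRoot (Ω : Set (ℝ × ℝ)) (z : ℝ) : Prop :=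
  z ^ 2 - z * (affPer Ω ^ 2 / Vol Ω - 2) + 1 = 0

/-- on the set `I` the embedding function is affine, or equal to the volume curve `√(z / Vol)` -/
def ElementaryOn (Ω : Set (ℝ × ℝ)) (I : Set ℝ) : Prop :=
  (∃ A B : ℝ, ∀ z ∈ I, cOmega Ω z = A + B * z) ∨ ∀ z ∈ I, cOmega Ω z = √(z / Vol Ω)

lemma vol_pos (Ω : Set (ℝ × ℝ)) (hK : IsCompact Ω) (hint : (interior Ω).Nonempty) : 0 < Vol Ω := by
  have harea : 0 < (MeasureTheory.volume Ω).toReal := by
    apply ENNReal.toReal_pos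
    · have h1 : 0 < MeasureTheory.volume (interior Ω) := isOpen_interior.measure_pos _ hint
      exact (lt_of_lt_of_le h1 (MeasureTheory.measure_mono interior_subset)).ne'
    · exact hK.measure_lt_top.ne
  unfold Vol
  linarith

/-- the function is nice at non-exceptional points (library: `local_nice`, `geoA` - `geoD`) -/
lemma nice (Ω : Set (ℝ × ℝ)) (hK : IsCompact Ω) (hc : Convex ℝ Ω)
    (hint : (interior Ω).Nonempty) (z₀ : ℝ) (hz₀ : 1 ≤ z₀) (hex : ¬ (Irrational z₀ ∧ IsRoot Ω z₀))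
    (s : ℤ) (hs : s = 1 ∨ (s = -1 ∧ 1 < z₀)) :
    NiceSide (cOmega Ω) (Vol Ω) z₀ s := by
  classical
  have hne : Ω.Nonempty := hint.mono interior_subset
  obtain ⟨hcap, hN, c₀, hc₀, hpos⟩ := geoD Ω hK hc hint
  obtain ⟨hw0, -, hwsum, -, -⟩ := geoA Ω hK hne
  have hper : affPer Ω = 3 * bK Ω - ∑' u, wK Ω u := (geoC Ω hK hc hint).tsum_eq
  have hsq := (geoB2.1 Ω hK hc hne).tsum_eq
  have hVol0 : 0 < Vol Ω := vol_pos Ω hK hint
  have harea : 0 < (MeasureTheory.volume Ω).toReal := by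
    unfold Vol at hVol0
    linarith
  have hb0 : 0 ≤ bK Ω := by
    have h := hN ∅ (1, fun _ => 0) (by simp) (by simp [idx, Bf, Kd])
    simpa [Bf, toR] using h
  have hvol : ∑' u, wK Ω u ^ 2 < bK Ω ^ 2 := by rw [hsq]; linarith
  have hb : 0 < bK Ω := by
    rcases lt_or_eq_of_le hb0 with h | h
    · exact h
    · exfalso
      rw [← h] at hvol
      have : 0 ≤ ∑' u, wK Ω u ^ 2 := tsum_nonneg (fun u => sq_nonneg _)
      norm_num at hvol
      linarith
  have hcap' : echCap Ω = capW (bK Ω) (wK Ω) := funext hcap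
  have hpos' : ∃ c > 0, ∀ k : ℕ, 1 ≤ k → c ≤ capW (bK Ω) (wK Ω) k := by
    refine ⟨c₀, hc₀, fun k hk => ?_⟩
    apply le_csInf
    · refine ⟨_, ∅, ((k : ℤ), fun _ => 0), by simp, ?_, rfl⟩
      simp only [idx, Bf, Kd, Finset.sum_empty, sub_zero]
      nlinarith [Int.natCast_nonneg k]
    · rintro L ⟨S, C, h1, h2, rfl⟩
      apply hpos S C h1
      have : (1 : ℤ) ≤ k := by exact_mod_cast hk
      linarith
  have hV : bK Ω ^ 2 - ∑' u, wK Ω u ^ 2 = Vol Ω := by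
    rw [hsq]; unfold Vol; ring
  have hz0 : 0 < z₀ := by linarith
  have hfun : cOmega Ω = cfun (capW (bK Ω) (wK Ω)) := by
    funext a
    unfold cOmega
    rw [hcap']
  have key := local_nice (bK Ω) (wK Ω) hb hw0 hwsum hvol hN hpos' z₀ hz₀ s hs (by
    rintro ⟨hirr, h⟩
    apply hex
    refine ⟨hirr, ?_⟩
    rw [hV, ← hper] at h
    have h1 : (√(z₀ / Vol Ω) * affPer Ω) ^ 2 = (1 + z₀) ^ 2 := by rw [h]
    rw [mul_pow, Real.sq_sqrt (by positivity)] at h1
    unfold IsRoot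
    have h2 : z₀ * (affPer Ω ^ 2 / Vol Ω) = (1 + z₀) ^ 2 := by
      rw [← h1]; ring
    nlinarith)
  rw [hV, ← hfun] at key
  exact key

lemma right_of_nice {Ω : Set (ℝ × ℝ)} {z₀ : ℝ} (h : NiceSide (cOmega Ω) (Vol Ω) z₀ ((1 : ℤ) : ℝ)) :
    ∃ δ > 0, ElementaryOn Ω (Ioo z₀ (z₀ + δ)) := by
  obtain ⟨δ, hδ, h⟩ := h
  refine ⟨δ, hδ, ?_⟩
  rcases h with ⟨A, B, h⟩ | h
  · refine Or.inl ⟨A - B * z₀, B, fun z hz => ?_⟩
    have := h (z - z₀) (by linarith [hz.1]) (by linarith [hz.2])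
    have e : z₀ + ((1 : ℤ) : ℝ) * (z - z₀) = z := by push_cast; ring
    rw [e] at this
    rw [this]; ring
  · refine Or.inr fun z hz => ?_
    have := h (z - z₀) (by linarith [hz.1]) (by linarith [hz.2])
    have e : z₀ + ((1 : ℤ) : ℝ) * (z - z₀) = z := by push_cast; ring
    rwa [e] at this

lemma left_of_nice {Ω : Set (ℝ × ℝ)} {z₀ : ℝ}
    (h : NiceSide (cOmega Ω) (Vol Ω) z₀ ((-1 : ℤ) : ℝ)) :
    ∃ δ > 0, ElementaryOn Ω (Ioo (z₀ - δ) z₀) := by
  obtain ⟨δ, hδ, h⟩ := h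
  refine ⟨δ, hδ, ?_⟩
  rcases h with ⟨A, B, h⟩ | h
  · refine Or.inl ⟨A + B * z₀, -B, fun z hz => ?_⟩
    have := h (z₀ - z) (by linarith [hz.2]) (by linarith [hz.1])
    have e : z₀ + ((-1 : ℤ) : ℝ) * (z₀ - z) = z := by push_cast; ring
    rw [e] at this
    rw [this]; ring
  · refine Or.inr fun z hz => ?_
    have := h (z₀ - z) (by linarith [hz.2]) (by linarith [hz.1])
    have e : z₀ + ((-1 : ℤ) : ℝ) * (z₀ - z) = z := by push_cast; ring
    rwa [e] at this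

lemma ElementaryOn.mono {Ω : Set (ℝ × ℝ)} {I J : Set ℝ} (h : ElementaryOn Ω I) (hJ : J ⊆ I) :
    ElementaryOn Ω J := by
  rcases h with ⟨A, B, h⟩ | h
  · exact Or.inl ⟨A, B, fun z hz => h z (hJ hz)⟩
  · exact Or.inr fun z hz => h z (hJ hz)

/-- `z` has a neighbourhood on which the embedding function is affine or the volume curve -/
def Elementary (Ω : Set (ℝ × ℝ)) (z : ℝ) : Prop :=
  ∃ δ > 0, ElementaryOn Ω (Ioo (z - δ) (z + δ))

lemma elementary_of_Ioo {Ω : Set (ℝ × ℝ)} {p q z : ℝ} (h : ElementaryOn Ω (Ioo p q))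
    (hz : z ∈ Ioo p q) : Elementary Ω z := by
  refine ⟨min (z - p) (q - z), lt_min (by linarith [hz.1]) (by linarith [hz.2]), ?_⟩
  apply h.mono
  intro x hx
  have h1 := min_le_left (z - p) (q - z)
  have h2 := min_le_right (z - p) (q - z)
  exact ⟨by linarith [hx.1], by linarith [hx.2]⟩

lemma Elementary.smooth {Ω : Set (ℝ × ℝ)} (hV : 0 < Vol Ω) {z : ℝ} (hz : 0 < z)
    (h : Elementary Ω z) : ContDiffAt ℝ (⊤ : ℕ∞) (cOmega Ω) z := by
  obtain ⟨δ, hδ, h⟩ := h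
  have hmem : Ioo (z - δ) (z + δ) ∈ nhds z := Ioo_mem_nhds (by linarith) (by linarith)
  rcases h with ⟨A, B, h⟩ | h
  · have hev : cOmega Ω =ᶠ[nhds z] fun x => A + B * x := by
      filter_upwards [hmem] with x hx using h x hx
    refine ContDiffAt.congr_of_eventuallyEq ?_ hev
    fun_prop
  · have hev : cOmega Ω =ᶠ[nhds z] fun x => √(x / Vol Ω) := by
      filter_upwards [hmem] with x hx using h x hx
    refine ContDiffAt.congr_of_eventuallyEq ?_ hev
    apply ContDiffAt.sqrt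
    · fun_prop
    · positivity

/-- **Local structure of the embedding function of a convex toric domain.**  Let `Ω` be compact and
convex with nonempty interior.
1. On a punctured one-sided neighbourhood (right, and left if `z₀ > 1`) of every `z₀ ≥ 1` that is not
an irrational root of the accumulation equation, `c_Ω` is affine or equal to the volume curve.
2. On a compact interval `[α, R]`, `α ≥ 1`, without irrational roots, all but finitely many points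
have a neighbourhood on which `c_Ω` is affine or equal to the volume curve.
3. If `X_Ω` has an infinite staircase, then `Per² / Vol > 4` and the accumulation point is
irrational. -/
theorem result (Ω : Set (ℝ × ℝ)) (hcomp : IsCompact Ω) (hconv : Convex ℝ Ω)
    (hint : (interior Ω).Nonempty) :
    (∀ z₀ : ℝ, 1 ≤ z₀ → ¬ (Irrational z₀ ∧ IsRoot Ω z₀) →
      (∃ δ > 0, ElementaryOn Ω (Ioo z₀ (z₀ + δ))) ∧
      (1 < z₀ → ∃ δ > 0, ElementaryOn Ω (Ioo (z₀ - δ) z₀))) ∧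
    (∀ α R : ℝ, 1 ≤ α → (∀ z ∈ Icc α R, Irrational z → ¬ IsRoot Ω z) →
      {z : ℝ | z ∈ Icc α R ∧ ¬ Elementary Ω z}.Finite) ∧
    (HasInfiniteStaircase Ω → 4 < affPer Ω ^ 2 / Vol Ω ∧
      ∀ a₀ : ℝ, 1 ≤ a₀ → IsRoot Ω a₀ → Irrational a₀) := by
  have hVol := vol_pos Ω hcomp hint
  have h1 : ∀ z₀ : ℝ, 1 ≤ z₀ → ¬ (Irrational z₀ ∧ IsRoot Ω z₀) →
      (∃ δ > 0, ElementaryOn Ω (Ioo z₀ (z₀ + δ))) ∧
      (1 < z₀ → ∃ δ > 0, ElementaryOn Ω (Ioo (z₀ - δ) z₀)) := by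
    intro z₀ hz₀ hex
    exact ⟨right_of_nice (nice Ω hcomp hconv hint z₀ hz₀ hex 1 (Or.inl rfl)),
      fun h => left_of_nice (nice Ω hcomp hconv hint z₀ hz₀ hex (-1) (Or.inr ⟨rfl, h⟩))⟩
  have h2 : ∀ α R : ℝ, 1 ≤ α → (∀ z ∈ Icc α R, Irrational z → ¬ IsRoot Ω z) →
      {z : ℝ | z ∈ Icc α R ∧ ¬ Elementary Ω z}.Finite := by
    intro α R hα hno
    by_contra hinf
    obtain ⟨z₀, hz₀, hacc⟩ := Set.Infinite.exists_accPt_of_subset_isCompact hinf
      (isCompact_Icc (a := α) (b := R)) (fun a ha => ha.1)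
    have hz1 : 1 ≤ z₀ := hα.trans hz₀.1
    obtain ⟨⟨δ₁, hδ₁, hr⟩, hl⟩ := h1 z₀ hz1 (fun h => hno z₀ hz₀ h.1 h.2)
    have hleft : ∃ δ₂ > 0, ∀ x : ℝ, z₀ - δ₂ < x → x < z₀ → α ≤ x → Elementary Ω x := by
      rcases lt_or_eq_of_le hz1 with h | h
      · obtain ⟨δ₂, hδ₂, hl⟩ := hl h
        exact ⟨δ₂, hδ₂, fun x h1 h2 _ => elementary_of_Ioo hl ⟨h1, h2⟩⟩
      · exact ⟨1, one_pos, fun x _ h2 h3 => by linarith⟩
    obtain ⟨δ₂, hδ₂, hl'⟩ := hleft
    rw [accPt_iff_nhds] at hacc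
    obtain ⟨y, ⟨hy1, hy2⟩, hyne⟩ := hacc (Ioo (z₀ - δ₂) (z₀ + δ₁))
      (Ioo_mem_nhds (by linarith) (by linarith))
    rcases lt_or_gt_of_ne hyne with h | h
    · exact hy2.2 (hl' y hy1.1 h hy2.1.1)
    · exact hy2.2 (elementary_of_Ioo hr ⟨h, hy1.2⟩)
  refine ⟨h1, h2, ?_⟩
  rintro ⟨R, hR⟩
  obtain ⟨z₀, hz₀, hirr, hroot⟩ : ∃ z₀ ∈ Icc (1 : ℝ) R, Irrational z₀ ∧ IsRoot Ω z₀ := by
    by_contra hcon
    push Not at hcon
    apply hR
    apply (h2 1 R le_rfl (fun z hz hi => hcon z hz hi)).subset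
    rintro a ⟨ha1, ha2, ha3⟩
    refine ⟨⟨ha1, ha2⟩, fun hel => ha3 ?_⟩
    exact hel.smooth hVol (by linarith)
  have hz0 : 0 < z₀ := by linarith [hz₀.1]
  have hne1 : z₀ ≠ 1 := by
    rintro rfl
    exact hirr ⟨1, by norm_num⟩
  have hgt : 0 < (z₀ - 1) ^ 2 := by
    have : z₀ - 1 ≠ 0 := sub_ne_zero.2 hne1
    positivity
  have key : affPer Ω ^ 2 / Vol Ω = (1 + z₀) ^ 2 / z₀ := by
    unfold IsRoot at hroot
    rw [eq_div_iff hz0.ne']
    linarith
  constructor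
  · rw [key, lt_div_iff₀ hz0]
    nlinarith
  · intro a₀ _ h
    have h1 : (a₀ - z₀) * (a₀ - z₀⁻¹) = 0 := by
      have e : (a₀ - z₀) * (a₀ - z₀⁻¹) = a₀ ^ 2 - a₀ * ((1 + z₀) ^ 2 / z₀ - 2) + 1 := by
        field_simp; ring
      rw [e, ← key]
      exact h
    rcases mul_eq_zero.mp h1 with h2 | h2
    · have : a₀ = z₀ := by linarith
      rw [this]; exact hirr
    · have : a₀ = z₀⁻¹ := by linarith
      rw [this]; exact irrational_inv_iff.mpr hirr

end Pool.Agent.Results.MP_f690a7_gt.LocalStructure
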